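import Pool.Agent.Helper19.SQ.GoalsB

/-!
Project SQ (MP_bb32d1_al), packet CH2.
-/

set_option autoImplicit false

namespace Pool.Agent.Helper53.SQ

noncomputable section

open Matrix Pool.Agent.Helper19.SQ Pool.Agent.Helper41.SQ

section

variable {N l : ℕ} {q : ℂ}

theorem tv_sum (H : A N l q →ₐ[ℂ] Mat N (A N l q)) (M : Type) [AddCommGroup M] [Module ℂ M]
    [Module (A N l q) M] [IsScalarTower ℂ (A N l q) M] (f : Ten H M) :
    f = ∑ j, tv H j (f j) := by
  funext i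
  have h : ∀ s : Finset (Fin (N + 1)), (∑ j ∈ s, tv H j (f j)) i = ∑ j ∈ s, tv H j (f j) i := by
    intro s
    exact Finset.sum_apply i s (fun j => (tv H j (f j) : Fin (N + 1) → M))
  rw [h]
  simp only [tv]
  rw [Finset.sum_ite_eq]
  simp

theorem set_eq (H : A N l q →ₐ[ℂ] Mat N (A N l q)) (M : Type) [AddCommGroup M] [Module ℂ M]
    [Module (A N l q) M] [IsScalarTower ℂ (A N l q) M] (m : M) (j : Fin (N + 1)) :
    {f : Ten H M | ∃ i, i < j ∧ f = tv H (Fin.rev i) m}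
      = {f | ∃ i, Fin.rev j < i ∧ f = tv H i m} := by
  ext f
  constructor
  · rintro ⟨i, hi, hf⟩
    exact ⟨Fin.rev i, Fin.rev_lt_rev.2 hi, hf⟩
  · rintro ⟨i, hi, hf⟩
    refine ⟨Fin.rev i, ?_, ?_⟩
    · rw [← Fin.rev_lt_rev, Fin.rev_rev]
      exact hi
    · rw [Fin.rev_rev]
      exact hf

end

theorem b_ch2 (hFL : S_FL) (hLAYS : S_LAYS) (hHARM : S_HARM) (hZ : S_ZUNIV) (hGENVS : S_GENVS)
    (hCUP1 : S_CUP1) (hFD : S_FDIM) (hCH : S_CHARV) : S_CH2 := by
  intro N l _ q D hP lam a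
  have hA : FiniteDimensional ℂ (A N l q) := hFD N l q hP
  obtain ⟨hfd, hsing, hgen, -⟩ := hZ N l q hP hA lam
  have := hfd
  have hq : q ≠ 0 := hP.prim.ne_zero (NeZero.ne l)
  have h1 : ∀ (j : Fin (N + 1)) (k : ℕ), gE N l q k • tv D.ep (Fin.rev j) (zgen q lam) ∈
      Submodule.span (A N l q)
        {f : Ten D.ep (Zl q lam) | ∃ i, i < j ∧ f = tv D.ep (Fin.rev i) (zgen q lam)} := by
    intro j k
    rw [set_eq]
    exact (hLAYS N l q D hP (Zl q lam) lam (zgen q lam) hsing (Fin.rev j)).1 k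
  have h2 : ∀ (j : Fin (N + 1)) (i : Fin (N + 1)), gK N l q i • tv D.ep (Fin.rev j) (zgen q lam)
      - qz q (subE lam (Fin.rev j) i) • tv D.ep (Fin.rev j) (zgen q lam) ∈
      Submodule.span (A N l q)
        {f : Ten D.ep (Zl q lam) | ∃ i, i < j ∧ f = tv D.ep (Fin.rev i) (zgen q lam)} := by
    intro j i
    rw [(hLAYS N l q D hP (Zl q lam) lam (zgen q lam) hsing (Fin.rev j)).2 i, sub_self]
    exact Submodule.zero_mem _
  have h3 : Submodule.span (A N l q)
      (Set.range fun j : Fin (N + 1) => tv D.ep (Fin.rev j) (zgen q lam)) = ⊤ := by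
    rw [eq_top_iff]
    intro f _
    rw [tv_sum D.ep (Zl q lam) f]
    refine Submodule.sum_mem _ fun j _ => ?_
    have hj : f j ∈ Submodule.span (A N l q) {zgen q lam} := by rw [hgen]; trivial
    obtain ⟨b, hb⟩ := Submodule.mem_span_singleton.1 hj
    rw [← hb, hGENVS N l q D hq (fun a j p => hCUP1 N l q hP D a p j) (Zl q lam) b (zgen q lam) j]
    refine Submodule.sum_mem _ fun k _ => Submodule.smul_mem _ _ (Submodule.subset_span ?_)
    exact ⟨Fin.rev k, by simp only [Fin.rev_rev]⟩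
  have h4 : Module.finrank ℂ (Ten D.ep (Zl q lam))
      = ∑ j : Fin (N + 1), dZ q (subE lam (Fin.rev j)) := by
    have e1 : Module.finrank ℂ (Ten D.ep (Zl q lam)) = ∑ _j : Fin (N + 1), dZ q lam :=
      Module.finrank_pi_fintype ℂ (M := fun _ : Fin (N + 1) => Zl q lam)
    rw [e1]
    exact Finset.sum_congr rfl fun j _ => (hHARM N l q D hP).1 lam (subE lam (Fin.rev j))
  have h5 := hFL N l q hP hA (Ten D.ep (Zl q lam)) (N + 1)
    (fun j => tv D.ep (Fin.rev j) (zgen q lam)) (fun j => subE lam (Fin.rev j)) h1 h2 h3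
  have h6 := (h5.2 h4).1 a
  rw [← (hCH N l q D.ep (Zl q lam)).2 a, h6]
  exact Equiv.sum_comp Fin.revPerm (fun j => chi (Zl q (subE lam j)) a)

end

end Pool.Agent.Helper53.SQ
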