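import Pool.Agent.Helper19.SQ.GoalsB

/-!
Project SQ (MP_bb32d1_al), packet GOOD.
-/

set_option autoImplicit false

namespace Pool.Agent.Helper53.SQ

noncomputable section

open Pool.Agent.Helper19.SQ Pool.Agent.Helper41.SQ

theorem deg1 {R : Type} [CommRing R] (l d : ℕ) :
    ((1 - Polynomial.X ^ l : Polynomial R) ^ d).natDegree ≤ l * d := by
  have h : (1 - Polynomial.X ^ l : Polynomial R).natDegree ≤ l :=
    (Polynomial.natDegree_sub_le _ _).trans
      (max_le (by simp) (Polynomial.natDegree_X_pow_le l))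
  calc ((1 - Polynomial.X ^ l : Polynomial R) ^ d).natDegree
      ≤ d * (1 - Polynomial.X ^ l : Polynomial R).natDegree := Polynomial.natDegree_pow_le
    _ ≤ d * l := Nat.mul_le_mul_left d h
    _ = l * d := mul_comm d l

theorem deg2 (l d : ℕ) :
    ((Polynomial.X ^ l - 1 : Polynomial ℂ) ^ d).natDegree ≤ l * d := by
  have h : (Polynomial.X ^ l - 1 : Polynomial ℂ).natDegree ≤ l :=
    (Polynomial.natDegree_sub_le _ _).trans
      (max_le (Polynomial.natDegree_X_pow_le l) (by simp))
  calc ((Polynomial.X ^ l - 1 : Polynomial ℂ) ^ d).natDegree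
      ≤ d * (Polynomial.X ^ l - 1 : Polynomial ℂ).natDegree := Polynomial.natDegree_pow_le
    _ ≤ d * l := Nat.mul_le_mul_left d h
    _ = l * d := mul_comm d l

theorem refl1 (l : ℕ) : Polynomial.reflect l (Polynomial.X ^ l - 1 : Polynomial ℂ)
    = 1 - Polynomial.X ^ l := by
  ext n
  rw [Polynomial.coeff_reflect, Polynomial.coeff_sub, Polynomial.coeff_sub,
    Polynomial.coeff_X_pow, Polynomial.coeff_X_pow, Polynomial.coeff_one, Polynomial.coeff_one]
  rcases le_or_gt n l with h | h
  · rw [Polynomial.revAt_le h]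
    rcases Nat.eq_zero_or_pos n with h0 | h0
    · subst h0
      rcases Nat.eq_zero_or_pos l with h1 | h1
      · subst h1; simp
      · have : ¬ (l = 0) := by omega
        have : ¬ (0 = l) := by omega
        simp [*]
    · rcases Nat.eq_or_lt_of_le h with h1 | h1
      · subst h1
        have : ¬ (n = 0) := by omega
        have : ¬ (0 = n) := by omega
        simp [*]
      · have e1 : ¬ (l - n = l) := by omega
        have e2 : ¬ (l - n = 0) := by omega
        have e3 : ¬ (n = 0) := by omega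
        have e4 : ¬ (n = l) := by omega
        simp [e1, e2, e3, e4]
  · rw [Polynomial.revAt_eq_self_of_lt h]
    have e1 : ¬ (n = l) := by omega
    have e2 : ¬ (n = 0) := by omega
    simp [e1, e2]

theorem reflK (l K : ℕ) : Polynomial.reflect (l * K) ((Polynomial.X ^ l - 1 : Polynomial ℂ) ^ K)
    = (1 - Polynomial.X ^ l) ^ K := by
  induction K with
  | zero => simp
  | succ K ih =>
    rw [pow_succ, Nat.mul_succ, Polynomial.reflect_mul _ _ (deg2 l K)
      (by simpa using deg2 l 1), ih, refl1, pow_succ]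

theorem coeff_rev (l K i : ℕ) (hi : i ≤ l * K) :
    ((1 - Polynomial.X ^ l : Polynomial ℂ) ^ K).coeff (l * K - i)
      = ((Polynomial.X ^ l - 1 : Polynomial ℂ) ^ K).coeff i := by
  rw [← reflK, Polynomial.coeff_reflect, Polynomial.revAt_le (Nat.sub_le _ _)]
  congr 1
  omega

variable {R : Type} [CommRing R] [Algebra ℂ R]

omit [Algebra ℂ R] in
theorem coe_pow1 (l K : ℕ) : (((1 - Polynomial.X ^ l : Polynomial R) ^ K : Polynomial R) :
    PowerSeries R) = (1 - PowerSeries.X ^ l) ^ K := by
  rw [Polynomial.coe_pow, Polynomial.coe_sub, Polynomial.coe_one, Polynomial.coe_pow,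
    Polynomial.coe_X]

theorem coeffR (l K i : ℕ) : ((1 - Polynomial.X ^ l : Polynomial R) ^ K).coeff i
    = algebraMap ℂ R (((1 - Polynomial.X ^ l : Polynomial ℂ) ^ K).coeff i) := by
  rw [← Polynomial.coeff_map]
  simp

theorem keyE (l K j : ℕ) (F : PowerSeries R) :
    PowerSeries.coeff (l * K + j + 1) ((1 - PowerSeries.X ^ l) ^ K * F)
      = ∑ i ∈ Finset.range (l * K + 1),
        ((Polynomial.X ^ l - 1 : Polynomial ℂ) ^ K).coeff i • PowerSeries.coeff (i + j + 1) F := by
  rw [← coe_pow1, PowerSeries.coeff_mul, Finset.Nat.sum_antidiagonal_eq_sum_range_succ_mk]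
  have hs : Finset.range (l * K + 1) ⊆ Finset.range (l * K + j + 1).succ := by
    intro x hx
    rw [Finset.mem_range] at hx ⊢
    omega
  rw [← Finset.sum_subset hs]
  · rw [← Finset.sum_flip (fun i => ((Polynomial.X ^ l - 1 : Polynomial ℂ) ^ K).coeff i •
      PowerSeries.coeff (i + j + 1) F)]
    refine Finset.sum_congr rfl fun i hi => ?_
    have hi' : i ≤ l * K := by rw [Finset.mem_range] at hi; omega
    have e : l * K - (l * K - i) = i := by omega
    dsimp only
    rw [Polynomial.coeff_coe, coeffR, ← coeff_rev l K (l * K - i) (Nat.sub_le _ _), e,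
      Algebra.smul_def]
    have e2 : l * K + j + 1 - i = l * K - i + j + 1 := by omega
    rw [e2]
  · intro i _ hi
    have hi' : l * K < i := by rw [Finset.mem_range] at hi; omega
    dsimp only
    rw [Polynomial.coeff_coe, Polynomial.coeff_eq_zero_of_natDegree_lt
      (lt_of_le_of_lt (deg1 l K) hi'), zero_mul]

theorem good_iff_aux (l K : ℕ) (F : PowerSeries R) (h : Good l K F) (j : ℕ) :
    ∑ i ∈ Finset.range (l * K + 1),
      ((Polynomial.X ^ l - 1 : Polynomial ℂ) ^ K).coeff i • PowerSeries.coeff (i + j + 1) F = 0 := by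
  obtain ⟨P, hP, hPF⟩ := h
  rw [← keyE, ← hPF, Polynomial.coeff_coe]
  exact Polynomial.coeff_eq_zero_of_natDegree_lt (by omega)

theorem pair_X (l K j : ℕ) (f : ℕ → R) :
    pair (Polynomial.X * ((Polynomial.X ^ l - 1) ^ K * Polynomial.X ^ j)) f
      = ∑ i ∈ Finset.range (l * K + 1),
        ((Polynomial.X ^ l - 1 : Polynomial ℂ) ^ K).coeff i • f (i + j + 1) := by
  have e : (Polynomial.X * ((Polynomial.X ^ l - 1) ^ K * Polynomial.X ^ j) : Polynomial ℂ)
      = (Polynomial.X ^ l - 1) ^ K * Polynomial.X ^ (j + 1) := by ring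
  have hd : ((Polynomial.X ^ l - 1 : Polynomial ℂ) ^ K * Polynomial.X ^ (j + 1)).natDegree
      < (j + 1) + (l * K + 1) := by
    refine lt_of_le_of_lt (Polynomial.natDegree_mul_le) ?_
    have := deg2 l K
    rw [Polynomial.natDegree_X_pow]
    omega
  rw [e, pair, Polynomial.sum_over_range' ((Polynomial.X ^ l - 1) ^ K * Polynomial.X ^ (j + 1))
    (f := fun k c => c • f k) (fun i => zero_smul ℂ (f i)) _ hd, Finset.sum_range_add]
  have h0 : ∑ x ∈ Finset.range (j + 1),
      ((Polynomial.X ^ l - 1 : Polynomial ℂ) ^ K * Polynomial.X ^ (j + 1)).coeff x • f x = 0 := by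
    refine Finset.sum_eq_zero fun x hx => ?_
    rw [Finset.mem_range] at hx
    rw [Polynomial.coeff_mul_X_pow', if_neg (by omega), zero_smul]
  rw [h0, zero_add]
  refine Finset.sum_congr rfl fun i _ => ?_
  rw [Polynomial.coeff_mul_X_pow', if_pos (by omega)]
  congr 2
  · omega
  · omega

theorem b_good : S_GOOD := by
  intro R _ _ l _
  refine ⟨?_, ?_, ?_, ?_, ?_, ?_, ?_⟩
  · rintro K K' F F' ⟨P, hP, hPF⟩ ⟨P', hP', hPF'⟩
    refine ⟨P * P', ?_, ?_⟩
    · refine Polynomial.natDegree_mul_le.trans ?_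
      rw [mul_add]
      exact Nat.add_le_add hP hP'
    · rw [Polynomial.coe_mul, hPF, hPF', pow_add]
      ring
  · rintro K K' F hK ⟨P, hP, hPF⟩
    obtain ⟨d, rfl⟩ := Nat.exists_eq_add_of_le hK
    refine ⟨P * (1 - Polynomial.X ^ l) ^ d, ?_, ?_⟩
    · refine Polynomial.natDegree_mul_le.trans ?_
      rw [mul_add]
      exact Nat.add_le_add hP (deg1 l d)
    · rw [Polynomial.coe_mul, hPF, coe_pow1, pow_add]
      ring
  · rintro K F F' ⟨P, hP, hPF⟩ ⟨P', hP', hPF'⟩
    refine ⟨P + P', ?_, ?_⟩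
    · exact (Polynomial.natDegree_add_le _ _).trans (max_le hP hP')
    · rw [Polynomial.coe_add, hPF, hPF', mul_add]
  · rintro K F c ⟨P, hP, hPF⟩
    refine ⟨Polynomial.C c * P, ?_, ?_⟩
    · exact (Polynomial.natDegree_C_mul_le _ _).trans hP
    · rw [Polynomial.coe_mul, hPF, Polynomial.coe_C]
      ring
  · rintro K F ⟨P, hP, hPF⟩
    refine ⟨P.map (algebraMap ℂ R), ?_, ?_⟩
    · exact Polynomial.natDegree_map_le.trans hP
    · rw [Polynomial.polynomial_map_coe, hPF]
      simp
  · intro K F hF g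
    induction g using Polynomial.induction_on' with
    | add p q hp hq => rw [mul_add, mul_add, pair_add, hp, hq, add_zero]
    | monomial n c =>
      have e : (Polynomial.X * ((Polynomial.X ^ l - 1) ^ K * Polynomial.monomial n c) :
          Polynomial ℂ) = c • (Polynomial.X * ((Polynomial.X ^ l - 1) ^ K * Polynomial.X ^ n)) := by
        rw [← Polynomial.C_mul_X_pow_eq_monomial, Polynomial.smul_eq_C_mul]
        ring
      rw [e, pair_smul, pair_X, good_iff_aux l K F hF n, smul_zero]
  · intro K F h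
    refine ⟨PowerSeries.trunc (l * K + 1) ((1 - PowerSeries.X ^ l) ^ K * F), ?_, ?_⟩
    · exact Nat.lt_succ_iff.1 (PowerSeries.natDegree_trunc_lt _ _)
    · ext n
      rw [Polynomial.coeff_coe, PowerSeries.coeff_trunc]
      split_ifs with hn
      · rfl
      · obtain ⟨j, rfl⟩ : ∃ j, n = l * K + j + 1 := ⟨n - (l * K + 1), by omega⟩
        rw [keyE, h j]

end

end Pool.Agent.Helper53.SQ
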