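import Pool.Agent.Helper19.SQ.GoalsB

/-!
Project SQ (MP_bb32d1_al), packet PC.
-/

set_option autoImplicit false

namespace Pool.Agent.Helper53.SQ

noncomputable section

open Pool.Agent.Helper19.SQ Pool.Agent.Helper41.SQ Polynomial

theorem om_inj {l : ℕ} [NeZero l] {q : ℂ} (h : IsPrimitiveRoot q l) (hodd : Odd l) :
    Function.Injective (fun c : ZMod l => qz q (2 * c)) := fun _ _ hab => qz2_inj h hodd hab

theorem xl_prod {l : ℕ} [NeZero l] {q : ℂ} (h : IsPrimitiveRoot q l) (hodd : Odd l) :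
    (X ^ l - 1 : ℂ[X]) = ∏ c : ZMod l, (X - C (qz q (2 * c))) := by
  have hpos : 0 < l := Nat.pos_of_ne_zero (NeZero.ne l)
  have hs : (Finset.univ : Finset (ZMod l)).image (fun c : ZMod l => qz q (2 * c))
      = nthRootsFinset l (1 : ℂ) := by
    apply Finset.eq_of_subset_of_card_le
    · intro x hx
      obtain ⟨c, -, rfl⟩ := Finset.mem_image.1 hx
      exact (mem_nthRootsFinset hpos 1).2 (qz_pow_l h.pow_eq_one _)
    · rw [h.card_nthRootsFinset, Finset.card_image_of_injective _ (om_inj h hodd),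
        Finset.card_univ, ZMod.card]
  rw [X_pow_sub_one_eq_prod hpos h, ← hs, Finset.prod_image]
  intro a _ b _ hab
  exact om_inj h hodd hab

theorem dvd_all {l : ℕ} [NeZero l] {q : ℂ} (h : IsPrimitiveRoot q l) (hodd : Odd l) (K : ℕ)
    (Y : ℂ[X]) (hY : ∀ c : ZMod l, (X - C (qz q (2 * c))) ^ K ∣ Y) :
    (X ^ l - 1 : ℂ[X]) ^ K ∣ Y := by
  rw [xl_prod h hodd, ← Finset.prod_pow]
  refine Finset.prod_dvd_of_coprime ?_ (fun c _ => hY c)
  intro a _ b _ hab
  exact IsCoprime.pow (pairwise_coprime_X_sub_C (om_inj h hodd) hab)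

theorem b_pc : S_PC := by
  intro l _ q h hodd K
  have h1 : ∀ c : ZMod l, ∃ p : ℂ[X], ∀ c' : ZMod l,
      (X - C (qz q (2 * c'))) ^ (K + 1) ∣ p - (if c = c' then 1 else 0) := by
    intro c
    have hcop : IsCoprime ((X - C (qz q (2 * c)) : ℂ[X]) ^ (K + 1))
        (∏ c' ∈ Finset.univ.erase c, (X - C (qz q (2 * c'))) ^ (K + 1)) := by
      refine IsCoprime.prod_right fun c' hc' => IsCoprime.pow ?_
      exact pairwise_coprime_X_sub_C (om_inj h hodd) (Finset.ne_of_mem_erase hc').symm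
    obtain ⟨a, b, hab⟩ := hcop
    refine ⟨b * ∏ c' ∈ Finset.univ.erase c, (X - C (qz q (2 * c'))) ^ (K + 1), fun c' => ?_⟩
    by_cases hc : c = c'
    · subst hc
      rw [if_pos rfl]
      exact ⟨-a, by linear_combination hab⟩
    · rw [if_neg hc, sub_zero]
      exact dvd_mul_of_dvd_right (Finset.dvd_prod_of_mem
        (fun c' : ZMod l => (X - C (qz q (2 * c')) : ℂ[X]) ^ (K + 1))
        (Finset.mem_erase.2 ⟨fun e => hc e.symm, Finset.mem_univ _⟩)) b
  choose p hp using h1
  refine ⟨p, fun c c' => ?_, fun c => ?_, fun c => ?_⟩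
  · have h2 : (X - C (qz q (2 * c')) : ℂ[X]) ∣ p c - (if c = c' then 1 else 0) :=
      (dvd_pow_self _ (Nat.succ_ne_zero K)).trans (hp c c')
    have h3 := dvd_iff_isRoot.1 h2
    rw [IsRoot.def, eval_sub] at h3
    rw [sub_eq_zero.1 h3]
    split_ifs <;> simp
  · refine dvd_all h hodd K _ fun c' => (pow_dvd_pow _ (Nat.le_succ K)).trans ?_
    have e : p c ^ 2 - p c = p c * (p c - 1) := by ring
    rw [e]
    by_cases hc : c = c'
    · have := hp c c'
      rw [if_pos hc] at this
      exact dvd_mul_of_dvd_right this _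
    · have := hp c c'
      rw [if_neg hc, sub_zero] at this
      exact dvd_mul_of_dvd_left this _
  · refine dvd_all h hodd K _ fun c' => ?_
    have h2 := pow_sub_one_dvd_derivative_of_pow_dvd (hp c c')
    rw [Nat.add_sub_cancel, derivative_sub] at h2
    have e : derivative (if c = c' then (1 : ℂ[X]) else 0) = 0 := by
      split_ifs <;> simp
    rwa [e, sub_zero] at h2

end

end Pool.Agent.Helper53.SQ
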