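import Pool.Agent.Helper19.SQ.GoalsB

/-!
Project SQ (MP_bb32d1_al), packet SPEC.
-/

set_option autoImplicit false

namespace Pool.Agent.Helper53.SQ

noncomputable section

open Pool.Agent.Helper19.SQ Polynomial

theorem b_spec : S_SPEC := by
  intro B _ _ _ g s
  have hint : IsIntegral ℂ g := IsIntegral.of_finite ℂ g
  have hμ0 : minpoly ℂ g ≠ 0 := minpoly.ne_zero hint
  obtain ⟨r, f, hf, hnd⟩ : ∃ (r : ℕ) (f : ℂ[X]), minpoly ℂ g = (X - C s) ^ r * f ∧
      ¬ (X - C s) ∣ f := by
    obtain ⟨f, h1, h2⟩ := Polynomial.exists_eq_pow_rootMultiplicity_mul_and_not_dvd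
      (minpoly ℂ g) hμ0 s
    exact ⟨_, f, h1, h2⟩
  have h0 : Polynomial.aeval g (minpoly ℂ g) = 0 := minpoly.aeval ℂ g
  have hcop : IsCoprime ((X - C s) ^ (r + 1)) f :=
    IsCoprime.pow_left ((Polynomial.irreducible_X_sub_C s).coprime_iff_not_dvd.2 hnd)
  obtain ⟨a, b, hab⟩ := hcop
  have hX : Polynomial.aeval g (X - C s : ℂ[X]) = g - algebraMap ℂ B s := by simp
  refine ⟨b * f, a * (X - C s) ^ r, r, ?_, ?_, ?_, ?_⟩
  · have e : (b * f) * (b * f) = b * f - b * a * (X - C s) * minpoly ℂ g := by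
      rw [hf]
      linear_combination (b * f) * hab
    rw [← map_mul, e, map_sub, map_mul (aeval g) (b * a * (X - C s)) (minpoly ℂ g), h0, mul_zero,
      sub_zero]
  · have e : (X - C s) ^ r * (b * f) = b * minpoly ℂ g := by
      rw [hf]
      ring
    rw [← hX, ← map_pow, ← map_mul, e, map_mul, h0, mul_zero]
  · have e : (X - C s) * (a * (X - C s) ^ r) = 1 - b * f := by
      linear_combination hab
    rw [← hX, ← map_mul, e, map_sub, map_one]
  · have e := congrArg (Polynomial.eval s) hab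
    simp only [Polynomial.eval_add, Polynomial.eval_mul, Polynomial.eval_pow, Polynomial.eval_sub,
      Polynomial.eval_X, Polynomial.eval_C, sub_self, Polynomial.eval_one, ne_eq,
      Nat.add_eq_zero_iff, one_ne_zero, and_false, not_false_eq_true, zero_pow, mul_zero,
      zero_add] at e
    rw [Polynomial.eval_mul]
    exact e

end

end Pool.Agent.Helper53.SQ
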